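import Pool.Agent.T6.H98.DC.Main
import Pool.Agent.H867R3.Kn.A4
import Pool.Agent.H867R3.Kn.C1
import Pool.Agent.H867R3.Kn.D2

set_option autoImplicit false

/-! The extreme coefficients of the normalised bracket of an adequate knot diagram. -/

namespace Pool.Agent.T6.H98.DC

open Finset LaurentPolynomial Pool.Agent.H832R2.JR Pool.Agent.H124R3.OW Pool.Agent.H867R3.Kn

variable {N : ℕ}

/-- In the state `s` of a knot diagram no curve meets itself at a crossing: the two arcs which replace a crossing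
(one of them contains the half edge `((c, false), false)`, the other one contains
`((c, false), true)`) belong to different curves. -/
def AdequateState (G : GaussWord N) (s : Fin N → Bool) : Prop :=
  ∀ c, Quot.mk (Joined G s) ((c, false), false) ≠ Quot.mk (Joined G s) ((c, false), true)

/-- The knot diagram is adequate: both the state `w` with all smoothings of type `A` and the state
with all smoothings of type `B` are adequate.  (For instance all reduced alternating diagrams are adequate.) -/
def AdequateDiagram (G : GaussWord N) (w : Fin N → Bool) : Prop :=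
  AdequateState G w ∧ AdequateState G (fun c => !w c)

theorem adq_of (G : GaussWord N) (s : Fin N → Bool) (h : AdequateState G s) : Adq G s := by
  intro c hc
  apply h c
  have h1 : ∀ x y, gen (arcFun G) (smooth (st s)) x y → 
      Quot.mk (Joined G s) x = Quot.mk (Joined G s) y := by
    rintro x y (rfl | rfl)
    · rcases x with ⟨p, _ | _⟩
      · show Quot.mk (Joined G s) (p, false) = Quot.mk (Joined G s) ((next G).symm p, true)
        refine Eq.symm (Quot.sound (Or.inl ⟨(next G).symm p, rfl, ?_⟩))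
        simp
      · exact Quot.sound (Or.inl ⟨p, rfl, rfl⟩)
    · rcases x with ⟨⟨c, b⟩, e⟩
      rw [← tri_st, smooth_tri]
      cases hs : s c
      · simp only [Bool.bne_false]
        cases b
        · exact Quot.sound (Or.inr (Or.inr ⟨c, e, hs, rfl, rfl⟩))
        · exact Eq.symm (Quot.sound (Or.inr (Or.inr ⟨c, e, hs, rfl, rfl⟩)))
      · simp only [Bool.bne_true]
        cases e
        · exact Quot.sound (Or.inr (Or.inl ⟨c, b, hs, rfl, rfl⟩))
        · exact Eq.symm (Quot.sound (Or.inr (Or.inl ⟨c, !b, hs, rfl, by simp⟩)))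
  exact congrArg (Quot.lift _ h1) hc

theorem coeff_mul_T (f : ℤ[T;T⁻¹]) (n k : ℤ) : (f * T n).coeff k = f.coeff (k - n) := by
  have h := AddMonoidAlgebra.coeff_mul_single_eq_coeff_mul (r := (1 : ℤ)) (x := f) (m := n) (m₁ := k) (k - n)
    (fun m' _ => by constructor <;> intro h <;> omega)
  rw [mul_one] at h
  exact h

theorem dpow_top (m : ℕ) : ((-T 2 - T (-2) : ℤ[T;T⁻¹]) ^ m).coeff (2 * m) = (-1) ^ m ∧
    ∀ k : ℤ, 2 * m < k → ((-T 2 - T (-2) : ℤ[T;T⁻¹]) ^ m).coeff k = 0 := by
  have hstep : ∀ (f : ℤ[T;T⁻¹]) (k : ℤ), (f * (-T 2 - T (-2))).coeff k = -f.coeff (k - 2) - f.coeff (k + 2) := by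
    intro f k
    have e : f * (-T 2 - T (-2)) = -(f * T 2) - f * T (-2) := by ring
    rw [e]
    show -((f * T 2).coeff k) - (f * T (-2)).coeff k = _
    rw [coeff_mul_T, coeff_mul_T]
    congr 2
  induction m with
  | zero =>
    constructor
    · rw [pow_zero, ← T_zero, T_apply]; simp
    · intro k hk
      rw [pow_zero, ← T_zero, T_apply, if_neg]
      intro h
      rw [← h] at hk
      simp at hk
  | succ m ih =>
    constructor
    · rw [pow_succ, hstep]
      have e1 : (2 * ((m + 1 : ℕ) : ℤ) - 2) = 2 * m := by push_cast; ring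
      rw [e1, ih.1, ih.2 _ (by push_cast; omega), pow_succ]
      ring
    · intro k hk
      push_cast at hk
      rw [pow_succ, hstep, ih.2 _ (by omega), ih.2 _ (by omega)]
      ring

theorem coeff_sum' {S : Type} (A : Finset S) (f : S → ℤ[T;T⁻¹]) (k : ℤ) :
    (∑ x ∈ A, f x).coeff k = ∑ x ∈ A, (f x).coeff k := by
  classical
  induction A using Finset.induction_on with
  | empty => simp
  | insert i A hi ih =>
    rw [Finset.sum_insert hi, Finset.sum_insert hi, ← ih]
    rfl

theorem top_coeff (f : Finset (Fin N) → ℕ) (hf : ∀ S, 1 ≤ f S)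
    (hS : ∀ S : Finset (Fin N), S.Nonempty → f S + 2 ≤ f ∅ + S.card) :
    (∑ S : Finset (Fin N), T ((N : ℤ) - 2 * S.card) * (-T 2 - T (-2)) ^ (f S - 1) : ℤ[T;T⁻¹]).coeff
      ((N : ℤ) + 2 * ((f ∅ : ℤ) - 1)) = (-1) ^ (f ∅ - 1) := by
  classical
  rw [coeff_sum', Finset.sum_eq_single ∅]
  · rw [mul_comm, coeff_mul_T]
    have h1 := hf ∅
    have e : (N : ℤ) + 2 * ((f ∅ : ℤ) - 1) - ((N : ℤ) - 2 * ((∅ : Finset (Fin N)).card : ℤ)) =
        2 * ((f ∅ - 1 : ℕ) : ℤ) := by
      rw [Finset.card_empty]
      push_cast [Nat.cast_sub h1]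
      ring
    rw [e, (dpow_top _).1]
  · intro S _ hne
    rw [mul_comm, coeff_mul_T]
    apply (dpow_top _).2
    have h1 := hf S
    have h2 := hS S (Finset.nonempty_iff_ne_empty.2 hne)
    push_cast [Nat.cast_sub h1]
    omega
  · intro h
    exact absurd (Finset.mem_univ _) h

theorem bracket_eq (G : GaussWord N) (w : Fin N → Bool) : bracket G w =
    ∑ S : Finset (Fin N), T ((N : ℤ) - 2 * S.card) * (-T 2 - T (-2)) ^ (ell G w S - 1) := by
  classical
  unfold bracket
  rw [← (D2_flip_bij w).sum_comp (fun s : Fin N → Bool =>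
      (T (weight w s) * (-T 2 - T (-2)) ^ (loops G s - 1) : ℤ[T;T⁻¹]))]
  refine Finset.sum_congr rfl (fun S _ => ?_)
  rw [D2_weight, loops_eq, tri_st]
  rfl

theorem ell_empty (G : GaussWord N) (w : Fin N → Bool) : ell G w ∅ = loops G w := by
  unfold ell
  rw [loops_eq, tri_st]
  congr 2

/-- the highest exponent -/
noncomputable def hi (G : GaussWord N) (w : Fin N → Bool) : ℤ := N + 2 * ((loops G w : ℤ) - 1) - 3 * writhe w

theorem coeff_hi (G : GaussWord N) (w : Fin N → Bool) (hN : 0 < N) (h : AdequateState G w) :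
    (fPoly G w).coeff (hi G w) = 1 ∨ (fPoly G w).coeff (hi G w) = -1 := by
  have h0 := adq_of G w h
  have h1 := top_coeff (N := N) (fun S => ell G w S) (fun S => one_le_L G _ ⟨0, hN⟩) 
    (fun S hS => (t_C1 t_A4 N G w h0 S S (Finset.Subset.refl _) hS).2)
  rw [← bracket_eq] at h1
  simp only [ell_empty] at h1
  unfold fPoly hi
  have h2 : ∀ f : ℤ[T;T⁻¹], ∀ k n : ℤ, (T n * f).coeff k = f.coeff (k - n) := fun f k n => by
    rw [mul_comm, coeff_mul_T]
  have e : (N : ℤ) + 2 * ((loops G w : ℤ) - 1) - 3 * writhe w - (-3 * writhe w) = 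
      (N : ℤ) + 2 * ((loops G w : ℤ) - 1) := by ring
  by_cases he : Even (writhe w)
  · rw [if_pos he, one_mul, h2, e, h1]
    exact neg_one_pow_eq_or ℤ _
  · rw [if_neg he, neg_one_mul, neg_mul]
    show -((T (-3 * writhe w) * bracket G w).coeff _) = 1 ∨ -((T (-3 * writhe w) * bracket G w).coeff _) = -1
    rw [h2, e, h1]
    rcases neg_one_pow_eq_or ℤ (loops G w - 1) with h | h
    · right; rw [h]
    · left; rw [h]; norm_num

theorem sgn_not (b : Bool) : sgn (!b) = -sgn b := by cases b <;> rfl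

theorem fPoly_mirror (G : GaussWord N) (w : Fin N → Bool) :
    fPoly G (fun c => !w c) = invert (fPoly G w) := by
  have h1 : ∀ s, weight (fun c => !w c) s = -weight w s := by
    intro s
    unfold weight
    rw [← Finset.sum_neg_distrib]
    exact Finset.sum_congr rfl fun c _ => by rw [sgn_not, neg_mul]
  have h2 : writhe (fun c => !w c) = -writhe w := by
    unfold writhe
    rw [← Finset.sum_neg_distrib]
    exact Finset.sum_congr rfl fun c _ => sgn_not _
  have h3 : invert (-T 2 - T (-2) : ℤ[T;T⁻¹]) = -T 2 - T (-2) := by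
    rw [map_sub, map_neg, invert_T, invert_T, neg_neg]
    ring
  have h4 : bracket G (fun c => !w c) = invert (bracket G w) := by
    unfold bracket
    rw [map_sum]
    refine Finset.sum_congr rfl fun s _ => ?_
    rw [map_mul, map_pow, h3, invert_T, h1]
  unfold fPoly
  rw [map_mul, map_mul, h4, h2, invert_T]
  congr 2
  · by_cases h : Even (writhe w)
    · rw [if_pos h, if_pos h.neg, map_one]
    · rw [if_neg h, if_neg (fun h' => h (by simpa using h'.neg)), map_neg, map_one]
  · congr 1
    ring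

/-- a multiple of two has even coefficients -/
theorem even_coeff (f : ℤ[T;T⁻¹]) (h : (2 : ℤ[T;T⁻¹]) ∣ f) (k : ℤ) : Even (f.coeff k) := by
  obtain ⟨g, rfl⟩ := h
  rw [two_mul]
  exact ⟨g.coeff k, rfl⟩

/-- the exponent of a polynomial which is a monomial modulo two -/
theorem exp_eq (f : ℤ[T;T⁻¹]) (e k : ℤ) (h : (2 : ℤ[T;T⁻¹]) ∣ f - T e) 
    (hk : f.coeff k = 1 ∨ f.coeff k = -1) : k = e := by
  by_contra hne
  have h1 := even_coeff _ h k
  have h2 : (f - T e).coeff k = f.coeff k - (T e : ℤ[T;T⁻¹]).coeff k := rfl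
  rw [h2, T_apply, if_neg (fun h => hne h.symm), sub_zero] at h1
  rcases hk with hk | hk
  · rw [hk] at h1; exact absurd h1 (by decide)
  · rw [hk] at h1; exact absurd h1 (by decide)

/-- **The normalised bracket of an adequate knot diagram is not a monomial modulo two.** -/
theorem adequate_monomial (G : GaussWord N) (w : Fin N → Bool) (h : AdequateDiagram G w) (e : ℤ)
    (h2 : (2 : ℤ[T;T⁻¹]) ∣ fPoly G w - T e) : N = 0 := by
  by_contra hN
  have hN' : 0 < N := Nat.pos_of_ne_zero hN
  have h3 := exp_eq _ _ _ h2 (coeff_hi G w hN' h.1)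
  have h4 : (2 : ℤ[T;T⁻¹]) ∣ fPoly G (fun c => !w c) - T (-e) := by
    rw [fPoly_mirror]
    obtain ⟨g, hg⟩ := h2
    refine ⟨invert g, ?_⟩
    have h5 := congrArg invert hg
    rw [map_sub, invert_T, map_mul] at h5
    rw [h5]
    congr 1
    exact map_ofNat _ 2
  have h5 := exp_eq _ _ _ h4 (coeff_hi G _ hN' h.2)
  have h6 : writhe (fun c => !w c) = -writhe w := by
    unfold writhe
    rw [← Finset.sum_neg_distrib]
    exact Finset.sum_congr rfl fun c _ => sgn_not _
  unfold hi at h3 h5
  rw [h6] at h5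
  have h7 : 1 ≤ loops G w := by rw [loops_eq]; exact one_le_L G _ ⟨0, hN'⟩
  have h8 : 1 ≤ loops G (fun c => !w c) := by rw [loops_eq]; exact one_le_L G _ ⟨0, hN'⟩
  omega

end Pool.Agent.T6.H98.DC
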