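import Pool.Agent.H832R2.JR.Path

set_option autoImplicit false

/-! Two involutions, a double cover of their orbits, and the number of the orbits. -/

namespace Pool.Agent.T6.H98.DC

open Finset Pool.Agent.H832R2.JR

theorem z2add (a : ZMod 2) : a + a = 0 := by revert a; decide

theorem z2eq {a b : ZMod 2} (h : a + b = 0) : a = b := by revert a b; decide

/-- A function is a coboundary if it is orthogonal to the functions which are constant on the
orbits. -/
theorem exists_pot {X : Type} [Fintype X] [DecidableEq X] (α β : X → X) (hα : ∀ x, α (α x) = x)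
    (hβ : ∀ x, β (β x) = x) (D : Finset X) (hD : ∀ x, x ∈ D ↔ β x ∉ D) (g : X → ZMod 2)
    (hg : ∀ x, g (β x) = g x)
    (h : ∀ b : X → ZMod 2, (∀ x, b (α x) = b x) → (∀ x, b (β x) = b x) →
      (∀ x, α x = x → b x = 0) → ∑ x ∈ D, b x * g x = 0) :
    ∃ u : X → ZMod 2, (∀ x, u (α x) = u x) ∧ ∀ x, u x + u (β x) = g x := by
  classical
  let V : Submodule (ZMod 2) (X → ZMod 2) :=
    { carrier := {u | ∀ x, u (α x) = u x}
      add_mem' := fun {a b} ha hb x => by
        show a (α x) + b (α x) = a x + b x
        rw [ha x, hb x]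
      zero_mem' := fun _ => rfl
      smul_mem' := fun c a ha x => by
        show c * a (α x) = c * a x
        rw [ha x] }
  let F : (X → ZMod 2) →ₗ[ZMod 2] (X → ZMod 2) :=
    { toFun := fun u x => u x + u (β x)
      map_add' := fun u v => by
        funext x
        show u x + v x + (u (β x) + v (β x)) = u x + u (β x) + (v x + v (β x))
        ring
      map_smul' := fun c u => by
        funext x
        show c * u x + c * u (β x) = c * (u x + u (β x))
        ring }
  by_contra hne
  have hgW : g ∉ V.map F := by
    rintro ⟨u, hu, hu'⟩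
    exact hne ⟨u, hu, fun x => congrFun hu' x⟩
  obtain ⟨f, hfg, hf⟩ := Submodule.exists_le_ker_of_notMem hgW
  apply hfg
  -- the functional is a sum
  obtain ⟨a, ha⟩ : ∃ a : X → ZMod 2, ∀ v, f v = ∑ x, v x * a x :=
    ⟨fun x => f (Pi.single x 1), fun v => by
      rw [LinearMap.pi_apply_eq_sum_univ f v]
      refine Finset.sum_congr rfl fun x _ => ?_
      rw [smul_eq_mul]
      congr 2
      funext j
      rw [Pi.single_apply]
      by_cases h : x = j
      · rw [if_pos h, if_pos h.symm]
      · rw [if_neg h, if_neg (Ne.symm h)]⟩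
  have hsum : ∀ φ : X → ZMod 2, ∑ x, φ (β x) = ∑ x, φ x := fun φ =>
    Equiv.sum_comp (⟨β, β, hβ, hβ⟩ : X ≃ X) φ
  have hb0 : ∀ u ∈ V, ∑ x, u x * (a x + a (β x)) = 0 := by
    intro u hu
    have h1 : f (F u) = 0 := hf (Submodule.mem_map_of_mem hu)
    rw [ha] at h1
    have h2 : ∑ x, F u x * a x = ∑ x, u x * a x + ∑ x, u (β x) * a x := by
      rw [← Finset.sum_add_distrib]
      refine Finset.sum_congr rfl fun x _ => ?_
      show (u x + u (β x)) * a x = _
      ring
    have h3 : ∑ x, u (β x) * a x = ∑ x, u x * a (β x) := by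
      rw [← hsum]
      refine Finset.sum_congr rfl fun x _ => ?_
      rw [hβ]
    rw [h2, h3, ← Finset.sum_add_distrib] at h1
    rw [← h1]
    refine Finset.sum_congr rfl fun x _ => ?_
    ring
  have hfix : ∀ x, α x = x → a x + a (β x) = 0 := by
    intro x hx
    have h1 := hb0 (Pi.single x 1) (fun y => by
      by_cases h : y = x
      · rw [h, hx]
      · have h' : α y ≠ x := fun h' => h (by rw [← hα y, h', hx])
        rw [Pi.single_eq_of_ne h, Pi.single_eq_of_ne h'])
    rw [Finset.sum_eq_single x] at h1
    · rwa [Pi.single_eq_same, one_mul] at h1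
    · intro y _ hy
      rw [Pi.single_eq_of_ne hy, zero_mul]
    · intro h; exact absurd (Finset.mem_univ x) h
  have hαb : ∀ x, a (α x) + a (β (α x)) = a x + a (β x) := by
    intro x
    by_cases hx : α x = x
    · rw [hx]
    · have h1 := hb0 (Pi.single x 1 + Pi.single (α x) 1) (fun y => by
        show (Pi.single x 1 : X → ZMod 2) (α y) + (Pi.single (α x) 1 : X → ZMod 2) (α y) =
          (Pi.single x 1 : X → ZMod 2) y + (Pi.single (α x) 1 : X → ZMod 2) y
        simp only [Pi.single_apply]
        have e1 : α y = x ↔ y = α x := ⟨fun h => by rw [← h, hα], fun h => by rw [h, hα]⟩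
        have e2 : α y = α x ↔ y = x := ⟨fun h => by rw [← hα y, h, hα], fun h => by rw [h]⟩
        rw [add_comm]
        simp only [e1, e2])
      have h2 : ∑ y, (Pi.single x 1 + Pi.single (α x) 1 : X → ZMod 2) y * (a y + a (β y)) =
          (a x + a (β x)) + (a (α x) + a (β (α x))) := by
        have h3 : ∀ y, (Pi.single x 1 + Pi.single (α x) 1 : X → ZMod 2) y * (a y + a (β y)) =
            (if y = x then (a y + a (β y)) else 0) + (if y = α x then (a y + a (β y)) else 0) := by
          intro y
          rw [Pi.add_apply, Pi.single_apply, Pi.single_apply, add_mul]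
          congr 1 <;> split_ifs <;> simp
        rw [Finset.sum_congr rfl (fun y _ => h3 y), Finset.sum_add_distrib, Finset.sum_ite_eq',
          Finset.sum_ite_eq', if_pos (Finset.mem_univ _), if_pos (Finset.mem_univ _)]
      rw [h2] at h1
      exact (z2eq h1).symm
  have h1 := h (fun x => a x + a (β x)) hαb (fun x => by
    show a (β x) + a (β (β x)) = a x + a (β x)
    rw [hβ, add_comm]) hfix
  rw [ha]
  have h2 : ∑ x, g x * a x = ∑ x ∈ D, g x * a x + ∑ x ∈ Dᶜ, g x * a x :=
    (Finset.sum_add_sum_compl D _).symm
  have h3 : ∑ x ∈ Dᶜ, g x * a x = ∑ x ∈ D, g x * a (β x) := by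
    refine Finset.sum_bij' (fun x _ => β x) (fun x _ => β x) ?_ ?_ ?_ ?_ ?_
    · intro x hx
      rw [Finset.mem_compl, hD, not_not] at hx
      exact hx
    · intro x hx
      rw [Finset.mem_compl]
      exact (hD x).1 hx
    · intro x _; exact hβ x
    · intro x _; exact hβ x
    · intro x _
      rw [hg, hβ]
  rw [h2, h3, ← Finset.sum_add_distrib]
  rw [← h1]
  refine Finset.sum_congr rfl fun x _ => ?_
  ring

section cover

variable {X : Type} (α β : X → X) (E : X → Prop) [DecidablePred E] (g : X → Bool)

/-- the first map of the cover -/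
def cα (a : X × Bool) : X × Bool := if E a.1 then (a.1, !a.2) else (α a.1, a.2)

/-- the second map of the cover -/
def cβ (a : X × Bool) : X × Bool := (β a.1, xor a.2 (g a.1))

/-- **The number of the orbits of the cover.**  All orbits except one have two lifts. -/
theorem card_cover [Finite X] (t : X) (ht : E t)
    (hE : ∀ x, E x → Quot.mk (gen α β) x = Quot.mk (gen α β) t)
    (hcl : ∀ x y, Quot.mk (gen α β) x = Quot.mk (gen α β) y →
      Quot.mk (fun x y => ¬ E x ∧ y = α x ∨ y = β x) x =
      Quot.mk (fun x y => ¬ E x ∧ y = α x ∨ y = β x) y)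
    (u : X → Bool) (hu1 : ∀ x, ¬ E x → u (α x) = u x)
    (hu2 : ∀ x, Quot.mk (gen α β) x ≠ Quot.mk (gen α β) t → xor (u x) (u (β x)) = g x) :
    Nat.card (Quot (gen (cα α E) (cβ β g))) + 1 = 2 * Nat.card (Quot (gen α β)) := by
  classical
  have : Finite (Quot (gen α β)) := Quot.finite _
  let Q := Quot (gen α β)
  let q : X → Q := Quot.mk _
  let A : X × Bool → Q × Bool := fun a => (q a.1, if q a.1 = q t then false else xor a.2 (u a.1))
  have hqβ : ∀ x, q (β x) = q x := fun x => 
    (Quot.sound (r := gen α β) (a := x) (b := β x) (Or.inr rfl)).symm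
  have hqα : ∀ x, q (α x) = q x := fun x => 
    (Quot.sound (r := gen α β) (a := x) (b := α x) (Or.inl rfl)).symm
  have hA : ∀ a b, gen (cα α E) (cβ β g) a b → A a = A b := by
    rintro ⟨x, φ⟩ b (rfl | rfl)
    · unfold cα
      by_cases hx : E x
      · simp only [A, if_pos hx]
        rw [if_pos (hE x hx), if_pos (hE x hx)]
      · simp only [A, if_neg hx]
        rw [hqα, hu1 x hx]
    · simp only [A, cβ]
      rw [hqβ]
      by_cases hx : q x = q t
      · rw [if_pos hx, if_pos hx]
      · rw [if_neg hx, if_neg hx, ← hu2 x hx]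
        cases φ <;> cases u x <;> cases u (β x) <;> rfl
  have key : ∀ x y, Quot.mk (fun x y => ¬ E x ∧ y = α x ∨ y = β x) x =
      Quot.mk (fun x y => ¬ E x ∧ y = α x ∨ y = β x) y → ∃ d : Bool,
      (∀ φ, Quot.mk (gen (cα α E) (cβ β g)) (x, φ) =
        Quot.mk (gen (cα α E) (cβ β g)) (y, xor φ d)) ∧
      (q x ≠ q t → d = xor (u x) (u y)) ∧ q x = q y := by
    intro x y h
    have h1 := Quot.eqvGen_exact h
    clear h
    induction h1 with
    | rel x y h =>
      rcases h with ⟨h, rfl⟩ | rfl
      · refine ⟨false, fun φ => ?_, fun _ => ?_, (hqα x).symm⟩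
        · apply Quot.sound
          left
          unfold cα
          rw [if_neg h]
          simp
        · rw [hu1 x h]; simp
      · refine ⟨g x, fun φ => ?_, fun h => (hu2 x h).symm, (hqβ x).symm⟩
        exact Quot.sound (Or.inr rfl)
    | refl x => exact ⟨false, fun φ => by simp, fun _ => by simp, rfl⟩
    | symm x y _ ih =>
      obtain ⟨d, h1, h2, h3⟩ := ih
      refine ⟨d, fun φ => ?_, fun h => ?_, h3.symm⟩
      · have h4 := h1 (xor φ d)
        have e : xor (xor φ d) d = φ := by cases φ <;> cases d <;> rfl
        rw [e] at h4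
        exact h4.symm
      · rw [h2 (by rw [h3]; exact h)]
        cases u x <;> cases u y <;> rfl
    | trans x y z _ _ ih1 ih2 =>
      obtain ⟨d, h1, h2, h3⟩ := ih1
      obtain ⟨d', h1', h2', h3'⟩ := ih2
      refine ⟨xor d d', fun φ => ?_, fun h => ?_, h3.trans h3'⟩
      · rw [h1, h1']
        congr 2
        cases φ <;> cases d <;> cases d' <;> rfl
      · rw [h2 h, h2' (by rw [← h3]; exact h)]
        cases u x <;> cases u y <;> cases u z <;> rfl
  have hinj : ∀ a b, A a = A b → Quot.mk (gen (cα α E) (cβ β g)) a =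
      Quot.mk (gen (cα α E) (cβ β g)) b := by
    rintro ⟨x, φ⟩ ⟨y, ψ⟩ h
    have h1 : q x = q y := congrArg Prod.fst h
    have h2 : (if q x = q t then false else xor φ (u x)) = 
      (if q y = q t then false else xor ψ (u y)) := congrArg Prod.snd h
    by_cases hx : q x = q t
    · -- the class of the ends
      obtain ⟨d, h3, -, -⟩ := key x t (hcl _ _ hx)
      obtain ⟨d', h3', -, -⟩ := key y t (hcl _ _ (h1.symm.trans hx))
      rw [h3, h3']
      have h4 : ∀ a b : Bool, Quot.mk (gen (cα α E) (cβ β g)) (t, a) =
          Quot.mk (gen (cα α E) (cβ β g)) (t, b) := by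
        have h5 : ∀ a, Quot.mk (gen (cα α E) (cβ β g)) (t, a) =
            Quot.mk (gen (cα α E) (cβ β g)) (t, !a) := by
          intro a
          apply Quot.sound
          left
          unfold cα
          rw [if_pos ht]
        intro a b
        cases a <;> cases b
        · rfl
        · exact h5 false
        · exact h5 true
        · rfl
      exact h4 _ _
    · rw [if_neg hx, if_neg (by rw [← h1]; exact hx)] at h2
      obtain ⟨d, h3, h4, -⟩ := key x y (hcl _ _ h1)
      rw [h3, h4 hx]
      congr 2
      revert h2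
      cases φ <;> cases ψ <;> cases u x <;> cases u y <;> simp
  let B : Quot (gen (cα α E) (cβ β g)) → {z : Q × Bool // z ≠ (q t, true)} :=
    Quot.lift (fun a => ⟨A a, by
      intro h
      have h1 : q a.1 = q t := congrArg Prod.fst h
      have h2 : (if q a.1 = q t then false else xor a.2 (u a.1)) = true := congrArg Prod.snd h
      rw [if_pos h1] at h2
      exact absurd h2 (by simp)⟩) (fun a b h => Subtype.ext (hA a b h))
  have hB : Function.Bijective B := by
    constructor
    · intro a b
      induction a using Quot.ind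
      induction b using Quot.ind
      intro h
      exact hinj _ _ (congrArg Subtype.val h)
    · rintro ⟨⟨z, φ⟩, hz⟩
      induction z using Quot.ind with
      | mk x =>
        by_cases hx : q x = q t
        · refine ⟨Quot.mk _ (x, false), Subtype.ext ?_⟩
          show A (x, false) = (q x, φ)
          have : φ = false := by
            cases φ
            · rfl
            · exact (hz (Prod.ext_iff.2 ⟨hx, rfl⟩)).elim
          rw [this]
          simp only [A, if_pos hx]
        · refine ⟨Quot.mk _ (x, xor φ (u x)), Subtype.ext ?_⟩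
          show A (x, xor φ (u x)) = (q x, φ)
          simp only [A, if_neg hx]
          congr 1
          cases φ <;> cases u x <;> rfl
  rw [Nat.card_congr (Equiv.ofBijective B hB)]
  have h1 : Nat.card {z : Q × Bool // z ≠ (q t, true)} + 1 = Nat.card (Q × Bool) := by
    have := Fintype.ofFinite Q
    rw [Nat.card_eq_fintype_card, Nat.card_eq_fintype_card]
    have h2 : Fintype.card {z : Q × Bool // z ≠ (q t, true)} = Fintype.card (Q × Bool) - 1 := by
      rw [Fintype.card_subtype_compl]
      simp
    rw [h2]
    have : 0 < Fintype.card (Q × Bool) := Fintype.card_pos_iff.2 ⟨(q t, true)⟩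
    omega
  rw [h1, Nat.card_prod]
  simp [Nat.card_eq_fintype_card, mul_comm]
  rfl

end cover

end Pool.Agent.T6.H98.DC
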