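import Pool.Agent.H124R3.OW.Final

set_option autoImplicit false

/-!
# The double cover of a knotoid diagram

For Gauss words, odd crossings and the odd writhe see `Pool.Agent.H832R2.JR.Defs` and
`Pool.Agent.H124R3.OW.Final`.

Let `K` be a knotoid diagram in the sphere with `N` crossings.  The double cover of the sphere which
is branched at the tail and at the head of `K` is again a sphere.  The preimage `K'` of `K` is the
diagram of a knot with `2 N` crossings.  Travel along `K'`: first along one lift of `K` from the
tail to the head, then back along the other lift from the head to the tail.  Let `c` be a crossing of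
`K`, passed at the places `p` and `q`.  The loop of `K` at `c` separates the tail from the head if and
only if it passes through an odd number of crossings between `p` and `q`, that is if `c` is odd.  So if `c` is
even, one lift of the crossing is passed twice on the first half of the way and the other one twice on the
second half, with the same sign as `c`; if `c` is odd then both lifts are passed once on the first half and once on
the second half; one of the two strands is reversed, so that the sign is opposite to the sign of `c`.
-/

namespace Pool.Agent.T6.H98.DC

open Finset LaurentPolynomial Pool.Agent.H832R2.JR Pool.Agent.H124R3.OW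

variable {N : ℕ}

/-- the two lifts of the crossing `c` are the crossings `lab (false, c)` and `lab (true, c)` -/
def lab : Bool × Fin N ≃ Fin (2 * N) :=
  (finTwoEquiv.symm.prodCongr (Equiv.refl (Fin N))).trans finProdFinEquiv

/-- Travel along a line with `n` places to its end and back: the place `t` is met at the time `t`
on the way there (`(t, false)`) and at the time `2 n - 1 - t` on the way back (`(t, true)`). -/
def fold (n : ℕ) : Fin n × Bool ≃ Fin (2 * n) where
  toFun a := if a.2 then ⟨2 * n - 1 - a.1, by have := a.1.2; omega⟩ else ⟨a.1, by have := a.1.2; omega⟩
  invFun u := if h : (u : ℕ) < n then (⟨u, h⟩, false) else (⟨2 * n - 1 - u, by omega⟩, true)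
  left_inv := by
    rintro ⟨t, _ | _⟩
    · simp
    · have := t.2
      have h : ¬ (2 * n - 1 - (t : ℕ) < n) := by omega
      simp only [if_true, h, dif_neg, not_false_eq_true]
      refine Prod.ext (Fin.ext ?_) rfl
      simp only
      omega
  right_inv := by
    intro u
    by_cases h : (u : ℕ) < n
    · simp [h]
    · have := u.2
      simp only [dif_neg h, if_true]
      refine Fin.ext ?_
      simp only
      omega

open Classical in
/-- whether the crossing `c` is odd -/
noncomputable def odd (G : GaussWord N) (c : Fin N) : Bool := decide (OddCrossing G c)

/-- The passage `b` of the lift `(d, c)` of the crossing `c` is a lift of the passage `(c, b)`, on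
the way there (`false`) or on the way back (`true`): on the way there if and only if `d = false`, but for
the second passage of an odd crossing it is the other way round. -/
noncomputable def passage (G : GaussWord N) : (Bool × Fin N) × Bool ≃ (Fin N × Bool) × Bool where
  toFun z := ((z.1.2, z.2), xor z.1.1 (z.2 && odd G z.1.2))
  invFun z := ((xor z.2 (z.1.2 && odd G z.1.1), z.1.1), z.1.2)
  left_inv := by
    rintro ⟨⟨d, c⟩, b⟩
    simp
  right_inv := by
    rintro ⟨⟨c, b⟩, φ⟩
    simp

/-- the Gauss word of the lift `K'` -/
noncomputable def lift (G : GaussWord N) : GaussWord (2 * N) :=
  ((lab.symm.prodCongr (Equiv.refl Bool)).trans (passage G)).trans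
    ((G.prodCongr (Equiv.refl Bool)).trans (fold (2 * N)))

/-- the signs of the crossings of the lift `K'` -/
noncomputable def liftSign (G : GaussWord N) (w : Fin N → Bool) (x : Fin (2 * N)) : Bool :=
  xor (w (lab.symm x).2) (odd G (lab.symm x).2)

/-- the places of the lift, explicitly -/
theorem lift_val (G : GaussWord N) (d : Bool) (c : Fin N) (b : Bool) :
    (lift G (lab (d, c), b) : ℕ) =
      if xor d (b && odd G c) then 4 * N - 1 - G (c, b) else G (c, b) := by
  have h : lift G (lab (d, c), b) = fold (2 * N) (G (c, b), xor d (b && odd G c)) := by
    simp [lift, passage]
  rw [h]
  unfold fold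
  simp only [Equiv.coe_fn_mk]
  split_ifs
  · show 2 * (2 * N) - 1 - (G (c, b) : ℕ) = _
    omega
  · rfl

end Pool.Agent.T6.H98.DC
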