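import Pool.Agent.T6.H98.DC.Adq
import Pool.Agent.H867R3.Kn.F1

set_option autoImplicit false

/-! Consequences for knotoids with trivial normalised bracket. -/

namespace Pool.Agent.T6.H98.DC

open Finset LaurentPolynomial Pool.Agent.H832R2.JR Pool.Agent.H124R3.OW Pool.Agent.H867R3.Kn

variable {N : ℕ}

theorem lift_one (G : GaussWord N) (w : Fin N → Bool) (h : fPoly G w = 1) :
    (2 : ℤ[T;T⁻¹]) ∣ fPoly (lift G) (liftSign G w) - 1 := by
  have h1 := fPoly_lift G w
  rw [h, odd_of_one G w h, mul_zero, T_zero, one_pow, mul_one] at h1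
  exact h1

theorem coeff_zero_ne (f : ℤ[T;T⁻¹]) (h : (2 : ℤ[T;T⁻¹]) ∣ f - 1) : f.coeff 0 ≠ 0 := by
  intro h0
  have h1 := even_coeff _ h 0
  have h2 : (f - 1).coeff 0 = f.coeff 0 - (1 : ℤ[T;T⁻¹]).coeff 0 := rfl
  rw [h2, h0, ← T_zero, T_apply, if_pos rfl] at h1
  exact absurd h1 (by decide)

theorem loops_le_succ (G : GaussWord N) (hN : 0 < N) (s : Fin N → Bool) : loops G s ≤ N + 1 := by
  have h1 := two_pow_loops G hN s
  have h2 : ((univ : Finset (Fin N → ZMod 2)).filter 
      (fun x => ∀ k, Ok (s k) (q G x k) (x k))).card ≤ 2 ^ N := by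
    refine (Finset.card_filter_le _ _).trans ?_
    rw [Finset.card_univ, Fintype.card_fun, ZMod.card, Fintype.card_fin]
  have h3 : 2 ^ loops G s ≤ 2 ^ (N + 1) := by
    rw [h1, pow_succ]
    omega
  exact (Nat.pow_le_pow_iff_right (by norm_num)).1 h3

theorem genus_two (G : GaussWord N) (hN : 0 < N) (w : Fin N → Bool)
    (h : (2 : ℤ[T;T⁻¹]) ∣ fPoly G w - 1) :
    N + 1 ≤ loops G (fun _ => true) + 4 * min (npos w) (nneg w) := by
  have h2 := coeff_bound G hN w 0 (coeff_zero_ne _ h)
  omega

theorem one_sign_two (G : GaussWord N) (w : Fin N → Bool)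
    (h : (2 : ℤ[T;T⁻¹]) ∣ fPoly G w - 1) (hw : (∀ c, w c = true) ∨ (∀ c, w c = false)) (i j : Fin N) :
    ¬ Crosses G i j := by
  classical
  have hN : 0 < N := lt_of_le_of_lt (Nat.zero_le _) i.2
  have h1 := genus_two G hN w h
  have h2 : min (npos w) (nneg w) = 0 := by
    rcases hw with hw | hw
    · have : nneg w = 0 := by
        unfold nneg
        rw [Finset.card_eq_zero, Finset.filter_eq_empty_iff]
        intro k _ hk
        rw [hw k] at hk
        exact absurd hk (by decide)
      rw [this, Nat.min_zero]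
    · have : npos w = 0 := by
        unfold npos
        rw [Finset.card_eq_zero, Finset.filter_eq_empty_iff]
        intro k _ hk
        rw [hw k] at hk
        exact absurd hk (by decide)
      rw [this, Nat.zero_min]
  rw [h2, mul_zero, add_zero] at h1
  have h3 := loops_le_succ G hN (fun _ => true)
  have h4 : L G (fun _ => 1) = N + 1 := by
    have h5 : loops G (fun _ => true) = L G (fun _ => 1) := by
      rw [loops_eq]
      rfl
    omega
  exact t_F1 N G h4 i j

end Pool.Agent.T6.H98.DC
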