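import Pool.Agent.T6.H98.DC.Defs
import Pool.Agent.T6.H98.DC.Cover
import Pool.Agent.H867R3.Kn.A1
import Pool.Agent.H832R2.JR.Moment

set_option autoImplicit false

/-! The states of the lift with equal smoothings at the two lifts of every crossing. -/

namespace Pool.Agent.T6.H98.DC

open Finset LaurentPolynomial Pool.Agent.H832R2.JR Pool.Agent.H124R3.OW Pool.Agent.H867R3.Kn

variable {N : ℕ}

/-- the passages of the lift as lifts of the passages -/
noncomputable def kap (G : GaussWord N) : Fin (2 * N) × Bool ≃ (Fin N × Bool) × Bool :=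
  (lab.symm.prodCongr (Equiv.refl Bool)).trans (passage G)

theorem lift_eq (G : GaussWord N) (P : Fin (2 * N) × Bool) :
    (lift G P : ℕ) = if (kap G P).2 then 4 * N - 1 - G (kap G P).1 else G (kap G P).1 := by
  have h : lift G P = fold (2 * N) (G (kap G P).1, (kap G P).2) := rfl
  rw [h]
  unfold fold
  simp only [Equiv.coe_fn_mk]
  split_ifs
  · show 2 * (2 * N) - 1 - (G (kap G P).1 : ℕ) = _
    omega
  · rfl

theorem next_eq (G : GaussWord N) (P P' : Fin (2 * N) × Bool) 
    (h : (lift G P' : ℕ) = if (lift G P : ℕ) + 1 = 2 * (2 * N) then 0 else (lift G P : ℕ) + 1) :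
    next (lift G) P = P' := by
  apply (lift G).injective
  apply Fin.ext
  rw [next_val, h]

theorem next_false (G : GaussWord N) (p : Fin N × Bool) :
    next (lift G) ((kap G).symm (p, false)) =
      (kap G).symm (if (G p : ℕ) + 1 = 2 * N then (p, true) else (next G p, false)) := by
  apply next_eq
  rw [lift_eq, lift_eq, Equiv.apply_symm_apply, Equiv.apply_symm_apply]
  have h1 := (G p).2
  split_ifs with h2 h3 h4 h5 h6 h7
  all_goals simp_all
  all_goals try omega
  rw [next_val, if_neg (by omega)]

theorem next_true (G : GaussWord N) (p : Fin N × Bool) :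
    next (lift G) ((kap G).symm (p, true)) =
      (kap G).symm (if (G p : ℕ) = 0 then (p, false) else ((next G).symm p, true)) := by
  apply next_eq
  rw [lift_eq, lift_eq, Equiv.apply_symm_apply, Equiv.apply_symm_apply]
  have h1 := (G p).2
  have h2 := A1_next_symm G p
  have h3 := (G ((next G).symm p)).2
  by_cases h0 : (G p : ℕ) = 0
  · rw [if_pos h0]
    simp only [if_true, Bool.false_eq_true, if_false]
    rw [if_pos (by omega), h0]
  · rw [if_neg h0]
    simp only [if_true]
    split_ifs at h2 with h4
    · exact absurd h2 h0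
    · rw [if_neg (by omega)]
      omega

/-- the half edges of the lift as lifts of the half edges -/
noncomputable def psi (G : GaussWord N) : Half (2 * N) ≃ Half N × Bool where
  toFun y := (((kap G y.1).1, xor y.2 (kap G y.1).2), (kap G y.1).2)
  invFun a := ((kap G).symm (a.1.1, a.2), xor a.1.2 a.2)
  left_inv := by
    rintro ⟨P, e⟩
    simp
  right_inv := by
    rintro ⟨⟨p, e⟩, φ⟩
    simp

theorem cα_inv (G : GaussWord N) [DecidablePred (A1_cut G)] (a : Half N × Bool) :
    cα (arcFun G) (A1_cut G) (cα (arcFun G) (A1_cut G) a) = a := by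
  rcases a with ⟨x, φ⟩
  by_cases h : A1_cut G x
  · have e1 : cα (arcFun G) (A1_cut G) (x, φ) = (x, !φ) := if_pos h
    have e2 : cα (arcFun G) (A1_cut G) (x, !φ) = (x, !!φ) := if_pos h
    rw [e1, e2, Bool.not_not]
  · have h' : ¬ A1_cut G (arcFun G x) := fun h' => h ((A1_cut_arc G x).1 h')
    have e1 : cα (arcFun G) (A1_cut G) (x, φ) = (arcFun G x, φ) := if_neg h
    have e2 : cα (arcFun G) (A1_cut G) (arcFun G x, φ) = (arcFun G (arcFun G x), φ) := if_neg h'
    rw [e1, e2, arcFun_inv]

theorem psi_arc_true (G : GaussWord N) [DecidablePred (A1_cut G)] (P : Fin (2 * N) × Bool) :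
    psi G (arcFun (lift G) (P, true)) = cα (arcFun G) (A1_cut G) (psi G (P, true)) := by
  obtain ⟨⟨p, φ⟩, rfl⟩ := (kap G).symm.surjective P
  show psi G (next (lift G) ((kap G).symm (p, φ)), false) = _
  cases φ
  · rw [next_false]
    by_cases h : (G p : ℕ) + 1 = 2 * N
    · rw [if_pos h]
      have e : psi G ((kap G).symm (p, false), true) = ((p, true), false) := by simp [psi]
      have hc : A1_cut G (p, true) := Or.inl ⟨rfl, h⟩
      rw [e]
      have e2 : cα (arcFun G) (A1_cut G) ((p, true), false) = ((p, true), !false) := if_pos hc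
      rw [e2]
      simp [psi]
    · rw [if_neg h]
      have e : psi G ((kap G).symm (p, false), true) = ((p, true), false) := by simp [psi]
      have hc : ¬ A1_cut G (p, true) := by
        rintro (⟨_, h'⟩ | ⟨h', _⟩)
        · exact h h'
        · simp at h'
      rw [e]
      have e2 : cα (arcFun G) (A1_cut G) ((p, true), false) = ((next G p, false), false) := if_neg hc
      rw [e2]
      simp [psi]
  · rw [next_true]
    by_cases h : (G p : ℕ) = 0
    · rw [if_pos h]
      have e : psi G ((kap G).symm (p, true), true) = ((p, false), true) := by simp [psi]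
      have hc : A1_cut G (p, false) := Or.inr ⟨rfl, h⟩
      rw [e]
      have e2 : cα (arcFun G) (A1_cut G) ((p, false), true) = ((p, false), !true) := if_pos hc
      rw [e2]
      simp [psi]
    · rw [if_neg h]
      have e : psi G ((kap G).symm (p, true), true) = ((p, false), true) := by simp [psi]
      have hc : ¬ A1_cut G (p, false) := by
        rintro (⟨h', _⟩ | ⟨_, h'⟩)
        · simp at h'
        · exact h h'
      rw [e]
      have e2 : cα (arcFun G) (A1_cut G) ((p, false), true) = (((next G).symm p, true), true) := 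
        if_neg hc
      rw [e2]
      simp [psi]

theorem psi_arc (G : GaussWord N) [DecidablePred (A1_cut G)] (y : Half (2 * N)) :
    psi G (arcFun (lift G) y) = cα (arcFun G) (A1_cut G) (psi G y) := by
  rcases y with ⟨P, _ | _⟩
  · have h := psi_arc_true G ((next (lift G)).symm P)
    have e : arcFun (lift G) ((next (lift G)).symm P, true) = (P, false) := by simp [arcFun]
    rw [e] at h
    rw [h, cα_inv]
    rfl
  · exact psi_arc_true G P

/-- the state of the lift over the state `s` -/
noncomputable def liftState (G : GaussWord N) (s : Fin N → Bool) (x : Fin (2 * N)) : Bool :=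
  xor (s (lab.symm x).2) (odd G (lab.symm x).2)

theorem smooth_tri (s : Fin N → Bool) (c : Fin N) (b e : Bool) :
    smooth (tri s) ((c, b), e) = ((c, !b), xor e (s c)) := by
  cases hs : s c <;> cases e <;> simp [smooth, tri, hs]

theorem psi_smooth (G : GaussWord N) (s : Fin N → Bool) (y : Half (2 * N)) :
    psi G (smooth (tri (liftState G s)) y) =
      cβ (smooth (tri s)) (fun x => odd G x.1.1) (psi G y) := by
  rcases y with ⟨⟨x, b⟩, e⟩
  obtain ⟨⟨d, c⟩, rfl⟩ := lab.surjective x
  rw [smooth_tri]
  have e1 : liftState G s (lab (d, c)) = xor (s c) (odd G c) := by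
    simp [liftState]
  have e2 : ∀ b, kap G (lab (d, c), b) = ((c, b), xor d (b && odd G c)) := by
    intro b
    simp [kap, passage]
  rw [e1]
  show (((kap G (lab (d, c), !b)).1, xor (xor e (xor (s c) (odd G c))) (kap G (lab (d, c), !b)).2),
    (kap G (lab (d, c), !b)).2) = cβ _ _ (((kap G (lab (d, c), b)).1, xor e (kap G (lab (d, c), b)).2),
    (kap G (lab (d, c), b)).2)
  rw [e2, e2]
  unfold cβ
  simp only
  rw [smooth_tri]
  cases d <;> cases b <;> cases e <;> cases s c <;> cases odd G c <;> rfl

/-- the classes of the lift -/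
theorem card_lift (G : GaussWord N) (s : Fin N → Bool) [DecidablePred (A1_cut G)] :
    loops (lift G) (liftState G s) = Nat.card (Quot (gen (cα (arcFun G) (A1_cut G))
      (cβ (smooth (tri s)) (fun x => odd G x.1.1)))) := by
  rw [loops_eq]
  unfold L
  refine Nat.card_congr (Quot.congr (psi G) ?_)
  intro a b
  unfold gen
  rw [← psi_arc, ← psi_smooth]
  constructor
  · rintro (rfl | rfl)
    · exact Or.inl rfl
    · exact Or.inr rfl
  · rintro (h | h)
    · exact Or.inl ((psi G).injective h)
    · exact Or.inr ((psi G).injective h)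

end Pool.Agent.T6.H98.DC
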