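import Pool.Agent.T6.H98.DC.Pot

set_option autoImplicit false

/-! The bracket of the lift modulo two. -/

namespace Pool.Agent.T6.H98.DC

open Finset LaurentPolynomial Pool.Agent.H832R2.JR Pool.Agent.H124R3.OW Pool.Agent.H867R3.Kn

variable {N : ℕ}

/-! ### General lemmas -/

theorem two_dvd_invol {R S : Type} [CommRing R] [Fintype S] [DecidableEq S] (σ : S → S) (hσ : ∀ x, σ (σ x) = x)
    (φ : S → R) (hφ : ∀ x, φ (σ x) = φ x) :
    (2 : R) ∣ ∑ x, φ x - ∑ x ∈ univ.filter (fun x => σ x = x), φ x := by
  have h1 : ∑ x, φ x = ∑ x ∈ univ.filter (fun x => σ x = x), φ x +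
      ∑ x ∈ univ.filter (fun x => ¬ σ x = x), φ x := 
    (Finset.sum_filter_add_sum_filter_not _ _ _).symm
  rw [h1, add_sub_cancel_left, ← Ideal.mem_span_singleton, ← Ideal.Quotient.eq_zero_iff_mem, map_sum]
  have h2 : ∀ a : R, Ideal.Quotient.mk (Ideal.span {(2 : R)}) (a + a) = 0 := by
    intro a
    rw [Ideal.Quotient.eq_zero_iff_mem, Ideal.mem_span_singleton]
    exact ⟨a, by ring⟩
  refine Finset.sum_involution (fun x _ => σ x) ?_ ?_ ?_ ?_
  · intro x _
    rw [← map_add, hφ, h2]
  · intro x hx _
    exact (Finset.mem_filter.1 hx).2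
  · intro x hx
    rw [Finset.mem_filter] at hx ⊢
    refine ⟨Finset.mem_univ _, ?_⟩
    rw [hσ]
    exact fun h => hx.2 h.symm
  · intro x _
    exact hσ x

theorem two_dvd_sq {R S : Type} [CommRing R] (A : Finset S) (a : S → R) :
    (2 : R) ∣ ∑ x ∈ A, a x ^ 2 - (∑ x ∈ A, a x) ^ 2 := by
  classical
  induction A using Finset.induction_on with
  | empty => simp
  | insert i A hi ih =>
    rw [Finset.sum_insert hi, Finset.sum_insert hi]
    obtain ⟨b, hb⟩ := ih
    refine ⟨b - a i * ∑ x ∈ A, a x, ?_⟩
    have h : a i ^ 2 + ∑ x ∈ A, a x ^ 2 - (a i + ∑ x ∈ A, a x) ^ 2 =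
        (∑ x ∈ A, a x ^ 2 - (∑ x ∈ A, a x) ^ 2) - 2 * (a i * ∑ x ∈ A, a x) := by ring
    rw [h, hb]
    ring

/-! ### The deck transformation -/

/-- the other lift of a crossing -/
def swap (x : Fin (2 * N)) : Fin (2 * N) := lab (!(lab.symm x).1, (lab.symm x).2)

theorem swap_lab (d : Bool) (c : Fin N) : swap (lab (d, c)) = lab (!d, c) := by
  simp [swap]

theorem swap_swap (x : Fin (2 * N)) : swap (swap x) = x := by
  obtain ⟨⟨d, c⟩, rfl⟩ := lab.surjective x
  rw [swap_lab, swap_lab, Bool.not_not]

/-- the deck transformation on the half edges -/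
def deck : Half (2 * N) ≃ Half (2 * N) where
  toFun y := ((swap y.1.1, y.1.2), !y.2)
  invFun y := ((swap y.1.1, y.1.2), !y.2)
  left_inv := by rintro ⟨⟨x, b⟩, e⟩; simp [swap_swap]
  right_inv := by rintro ⟨⟨x, b⟩, e⟩; simp [swap_swap]

theorem kap_swap (G : GaussWord N) (x : Fin (2 * N)) (b : Bool) :
    kap G (swap x, b) = ((kap G (x, b)).1, !(kap G (x, b)).2) := by
  obtain ⟨⟨d, c⟩, rfl⟩ := lab.surjective x
  rw [swap_lab]
  simp [kap, passage]

theorem psi_deck (G : GaussWord N) (y : Half (2 * N)) :
    psi G (deck y) = ((psi G y).1, !(psi G y).2) := by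
  rcases y with ⟨⟨x, b⟩, e⟩
  show (((kap G (swap x, b)).1, xor (!e) (kap G (swap x, b)).2), (kap G (swap x, b)).2) = _
  rw [kap_swap]
  show _ = (((kap G (x, b)).1, xor e (kap G (x, b)).2), !(kap G (x, b)).2)
  cases e <;> cases (kap G (x, b)).2 <;> rfl

theorem deck_arc (G : GaussWord N) (y : Half (2 * N)) :
    deck (arcFun (lift G) y) = arcFun (lift G) (deck y) := by
  classical
  apply (psi G).injective
  rw [psi_deck, psi_arc, psi_arc, psi_deck]
  unfold cα
  by_cases h : A1_cut G (psi G y).1
  · simp only [if_pos h]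
  · simp only [if_neg h]

theorem deck_smooth (s : Fin (2 * N) → Bool) (y : Half (2 * N)) :
    deck (smooth (tri s) y) = smooth (tri (s ∘ swap)) (deck y) := by
  rcases y with ⟨⟨x, b⟩, e⟩
  rw [smooth_tri]
  show ((swap x, !b), !(xor e (s x))) = smooth (tri (s ∘ swap)) ((swap x, b), !e)
  rw [smooth_tri]
  simp only [Function.comp, swap_swap]
  cases e <;> cases s x <;> rfl

theorem loops_swap (G : GaussWord N) (s : Fin (2 * N) → Bool) :
    loops (lift G) (s ∘ swap) = loops (lift G) s := by
  rw [loops_eq, loops_eq]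
  unfold L
  refine (Nat.card_congr (Quot.congr deck ?_)).symm
  intro a b
  unfold gen
  rw [← deck_arc, ← deck_smooth]
  constructor
  · rintro (rfl | rfl)
    · exact Or.inl rfl
    · exact Or.inr rfl
  · rintro (h | h)
    · exact Or.inl (deck.injective h)
    · exact Or.inr (deck.injective h)

/-- sums over the crossings of the lift -/
theorem sum_lab {M : Type} [AddCommMonoid M] (f : Fin (2 * N) → M) :
    ∑ x, f x = ∑ c, (f (lab (false, c)) + f (lab (true, c))) := by
  rw [← Equiv.sum_comp lab f, Fintype.sum_prod_type, Fintype.sum_bool, Finset.sum_add_distrib, add_comm]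

theorem weight_swap (G : GaussWord N) (w : Fin N → Bool) (s : Fin (2 * N) → Bool) :
    weight (liftSign G w) (s ∘ swap) = weight (liftSign G w) s := by
  unfold weight
  rw [sum_lab, sum_lab]
  refine Finset.sum_congr rfl fun c _ => ?_
  simp only [Function.comp, swap_lab]
  simp [liftSign]
  ring

theorem sgn_xor (a b : Bool) : sgn (xor a b) = if b then -sgn a else sgn a := by
  cases a <;> cases b <;> rfl

theorem weight_lift (G : GaussWord N) (w s : Fin N → Bool) :
    weight (liftSign G w) (liftState G s) = 2 * weight w s := by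
  unfold weight
  rw [sum_lab, Finset.mul_sum]
  refine Finset.sum_congr rfl fun c _ => ?_
  simp only [liftSign, liftState, Equiv.symm_apply_apply, sgn_xor]
  split_ifs <;> ring

theorem writhe_lift (G : GaussWord N) (w : Fin N → Bool) :
    writhe (liftSign G w) = 2 * writhe w - 4 * oddWrithe G w := by
  classical
  unfold writhe oddWrithe
  rw [sum_lab, Finset.mul_sum, Finset.mul_sum, ← Finset.sum_sub_distrib]
  refine Finset.sum_congr rfl fun c _ => ?_
  simp only [liftSign, Equiv.symm_apply_apply, sgn_xor, odd]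
  by_cases h : OddCrossing G c
  · simp [h]; ring
  · simp [h]; ring

theorem loops_lift' (G : GaussWord N) (s : Fin N → Bool) :
    loops (lift G) (liftState G s) - 1 = 2 * (loops G s - 1) := by
  rcases Nat.eq_zero_or_pos N with rfl | hN
  · have h1 : loops G s = 0 := by
      unfold loops
      have : IsEmpty (Quot (Joined G s)) := ⟨fun z => by
        induction z using Quot.ind with
        | mk x => exact x.1.1.elim0⟩
      exact Nat.card_of_isEmpty
    have h2 : loops (lift G) (liftState G s) = 0 := by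
      unfold loops
      have : IsEmpty (Quot (Joined (lift G) (liftState G s))) := ⟨fun z => by
        induction z using Quot.ind with
        | mk x => exact x.1.1.elim0⟩
      exact Nat.card_of_isEmpty
    rw [h1, h2]
  · have h := loops_lift G hN s
    omega

/-- **The bracket of the lift modulo 2.** -/
theorem bracket_lift (G : GaussWord N) (w : Fin N → Bool) :
    (2 : ℤ[T;T⁻¹]) ∣ bracket (lift G) (liftSign G w) - bracket G w ^ 2 := by
  classical
  have h1 := two_dvd_invol (R := ℤ[T;T⁻¹]) (S := Fin (2 * N) → Bool) (fun s => s ∘ swap) 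
    (fun s => by funext x; simp [swap_swap])
    (fun s => T (weight (liftSign G w) s) * (-T 2 - T (-2)) ^ (loops (lift G) s - 1))
    (fun s => by simp only [weight_swap, loops_swap])
  have h2 : ∑ s ∈ univ.filter (fun s : Fin (2 * N) → Bool => s ∘ swap = s), 
      (T (weight (liftSign G w) s) * (-T 2 - T (-2)) ^ (loops (lift G) s - 1) : ℤ[T;T⁻¹]) = 
      ∑ s : Fin N → Bool, (T (weight w s) * (-T 2 - T (-2)) ^ (loops G s - 1)) ^ 2 := by
    symm
    refine Finset.sum_bij (fun s _ => liftState G s) ?_ ?_ ?_ ?_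
    · intro s _
      rw [Finset.mem_filter]
      refine ⟨Finset.mem_univ _, ?_⟩
      funext x
      obtain ⟨⟨d, c⟩, rfl⟩ := lab.surjective x
      simp [liftState, swap_lab]
    · intro s _ s' _ h
      funext c
      have h3 := congrFun h (lab (false, c))
      simpa [liftState] using h3
    · intro s hs
      have hs' := (Finset.mem_filter.1 hs).2
      refine ⟨fun c => xor (s (lab (false, c))) (odd G c), Finset.mem_univ _, ?_⟩
      funext x
      obtain ⟨⟨d, c⟩, rfl⟩ := lab.surjective x
      have h3 := congrFun hs' (lab (false, c))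
      simp only [Function.comp, swap_lab, Bool.not_false] at h3
      simp only [liftState, Equiv.symm_apply_apply]
      cases d
      · simp
      · rw [h3]; simp
    · intro s _
      rw [weight_lift, loops_lift', mul_pow, ← pow_mul, LaurentPolynomial.T_pow, mul_comm 2 (loops G s - 1)]
      push_cast
      rfl
  have h3 := two_dvd_sq (univ : Finset (Fin N → Bool)) 
    (fun s => (T (weight w s) * (-T 2 - T (-2)) ^ (loops G s - 1) : ℤ[T;T⁻¹]))
  rw [← h2] at h3
  have h4 := dvd_add h1 h3
  rw [sub_add_sub_cancel] at h4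
  exact h4

/-- **The normalised bracket of the lift modulo 2.** -/
theorem fPoly_lift (G : GaussWord N) (w : Fin N → Bool) :
    (2 : ℤ[T;T⁻¹]) ∣ fPoly (lift G) (liftSign G w) - T (12 * oddWrithe G w) * fPoly G w ^ 2 := by
  have h := bracket_lift G w
  have he : Even (writhe (liftSign G w)) := ⟨writhe w - 2 * oddWrithe G w, by rw [writhe_lift]; ring⟩
  have h1 : fPoly (lift G) (liftSign G w) = T (-3 * writhe (liftSign G w)) * bracket (lift G) (liftSign G w) := by
    unfold fPoly
    rw [if_pos he, one_mul]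
  have h2 : T (12 * oddWrithe G w) * fPoly G w ^ 2 = 
      T (-3 * writhe (liftSign G w)) * bracket G w ^ 2 := by
    unfold fPoly
    have h3 : ((if Even (writhe w) then 1 else -1) : ℤ[T;T⁻¹]) ^ 2 = 1 := by
      split_ifs <;> simp
    rw [mul_pow, mul_pow, h3, one_mul, LaurentPolynomial.T_pow, ← mul_assoc, ← T_add, writhe_lift]
    congr 2
    push_cast
    ring
  rw [h1, h2, ← mul_sub]
  exact Dvd.dvd.mul_left h _

end Pool.Agent.T6.H98.DC
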