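import Pool.Agent.T6.H98.DC.Lift

set_option autoImplicit false

/-! Every curve of a state turns at the odd crossings an even number of times. -/

namespace Pool.Agent.T6.H98.DC

open Finset LaurentPolynomial Pool.Agent.H832R2.JR Pool.Agent.H124R3.OW Pool.Agent.H867R3.Kn

variable {N : ℕ}

theorem tri_st (s : Fin N → Bool) : tri s = st s := rfl

/-- the parity of a crossing -/
theorem odd_par (G : GaussWord N) (c : Fin N) : (if odd G c then (1 : ZMod 2) else 0) = par G c := by
  unfold odd
  have h := par_iff G c
  by_cases ho : OddCrossing G c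
  · have h1 : par G c ≠ 0 := fun h' => h.1 h' ho
    rw [if_pos (by simpa using ho)]
    revert h1
    generalize par G c = a
    revert a
    decide
  · rw [if_neg (by simpa using ho), h.2 ho]

/-- the main identity -/
theorem par_jump (G : GaussWord N) (hN : 0 < N) (s : Fin N → Bool) (b : Half N → ZMod 2)
    (hb : ∀ x y, Joined G s x y → b x = b y) : ∑ c, par G c * jump b c = 0 := by
  classical
  have h1 := col_eq G hN s b hb
  have hok : ∀ k, Ok (s k) (q G (jump b) k) (jump b k) := by
    intro k
    have h2 := hb
    rw [h1] at h2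
    exact ok_of_col G s _ _ h2 k
  have h2 : ∑ c, par G c * jump b c = ∑ j, q G (jump b) j := by
    unfold par q
    have e1 : ∀ c, (∑ j, if Crosses G c j then (1 : ZMod 2) else 0) * jump b c =
        ∑ j, if Crosses G c j then jump b c else 0 := by
      intro c
      rw [Finset.sum_mul]
      refine Finset.sum_congr rfl fun j _ => ?_
      split_ifs <;> simp
    rw [Finset.sum_congr rfl (fun c _ => e1 c), Finset.sum_comm]
    refine Finset.sum_congr rfl fun j _ => Finset.sum_congr rfl fun c _ => ?_
    by_cases h : Crosses G c j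
    · rw [if_pos h, if_pos (crosses_symm G c j h)]
    · rw [if_neg h, if_neg (fun h' => h (crosses_symm G j c h'))]
  rw [h2, ← form_zero G (jump b)]
  refine Finset.sum_congr rfl fun k _ => ?_
  have h3 := hok k
  unfold Ok at h3
  split_ifs at h3
  · rw [h3, mul_zero]
  · rw [h3]
    generalize jump b k = a
    revert a
    decide

theorem mk_arc (G : GaussWord N) (t : Fin N → Fin 3) (x : Half N) :
    Quot.mk (gen (arcFun G) (smooth t)) (arcFun G x) = Quot.mk (gen (arcFun G) (smooth t)) x :=
  (Quot.sound (r := gen (arcFun G) (smooth t)) (a := x) (b := arcFun G x) (Or.inl rfl)).symm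

theorem mk_smooth (G : GaussWord N) (t : Fin N → Fin 3) (x : Half N) :
    Quot.mk (gen (arcFun G) (smooth t)) (smooth t x) = Quot.mk (gen (arcFun G) (smooth t)) x :=
  (Quot.sound (r := gen (arcFun G) (smooth t)) (a := x) (b := smooth t x) (Or.inr rfl)).symm

theorem mk_cut (G : GaussWord N) (t : Fin N → Fin 3) (x y : Half N) (hx : A1_cut G x)
    (hy : A1_cut G y) :
    Quot.mk (gen (arcFun G) (smooth t)) x = Quot.mk (gen (arcFun G) (smooth t)) y := by
  by_cases h : x.2 = y.2
  · rw [A1_cut_inj G hx hy h]
  · have h1 : A1_cut G (arcFun G y) := (A1_cut_arc G y).2 hy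
    have h2 : x.2 = (arcFun G y).2 := by
      have : (arcFun G y).2 = !y.2 := by
        rcases y with ⟨p, _ | _⟩ <;> rfl
      rw [this]
      revert h
      cases x.2 <;> cases y.2 <;> simp
    rw [A1_cut_inj G hx h1 h2, mk_arc]

/-- the potential -/
theorem exists_u (G : GaussWord N) (hN : 0 < N) (s : Fin N → Bool) (t : Half N) (ht : A1_cut G t) :
    ∃ u : Half N → Bool, (∀ x, ¬ A1_cut G x → u (arcFun G x) = u x) ∧
      ∀ x, Quot.mk (gen (arcFun G) (smooth (tri s))) x ≠
        Quot.mk (gen (arcFun G) (smooth (tri s))) t →
        xor (u x) (u (smooth (tri s) x)) = odd G x.1.1 := by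
  classical
  let q' : Half N → Quot (gen (arcFun G) (smooth (tri s))) := Quot.mk _
  obtain ⟨u, hu1, hu2⟩ := exists_pot (A1_arc G) (smooth (tri s)) (A1_arc_inv G) (smooth_inv _)
    (univ.filter fun x => x.1.2 = false)
    (fun x => by
      have h : (smooth (tri s) x).1.2 = !x.1.2 := by
        rcases x with ⟨⟨c, b⟩, e⟩
        rw [smooth_tri]
      simp only [Finset.mem_filter, Finset.mem_univ, true_and, h]
      cases x.1.2 <;> simp)
    (fun x => if q' x = q' t then 0 else if odd G x.1.1 then 1 else 0)
    (fun x => by
      have h1 : q' (smooth (tri s) x) = q' x := mk_smooth G _ x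
      simp only [h1, smooth_fst])
    (fun b hb1 hb2 hb3 => by
      have hb4 : ∀ x, b (arcFun G x) = b x := by
        intro x
        by_cases hx : A1_cut G x
        · have hx' : A1_cut G (arcFun G x) := (A1_cut_arc G x).2 hx
          rw [hb3 x ((A1_arc_fixed G x).2 hx), hb3 _ ((A1_arc_fixed G _).2 hx')]
        · have h1 := hb1 x
          rwa [show A1_arc G x = arcFun G x from if_neg hx] at h1
      have hgen : ∀ x y, gen (arcFun G) (smooth (tri s)) x y → b x = b y := by
        rintro x y (rfl | rfl)
        · exact (hb4 x).symm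
        · exact (hb2 x).symm
      have hmk : ∀ x y, q' x = q' y → b x = b y := fun x y h => congrArg (Quot.lift b hgen) h
      have hJ : ∀ x y, Joined G s x y → b x = b y := by
        rintro x y (⟨p, rfl, rfl⟩ | ⟨c, e, hs, rfl, rfl⟩ | ⟨c, e, hs, rfl, rfl⟩)
        · exact (hb4 (p, true)).symm
        · have := hb2 ((c, e), false)
          rw [smooth_tri, hs] at this
          exact this.symm
        · have := hb2 ((c, false), e)
          rw [smooth_tri, hs] at this
          simpa using this.symm
      have hbt : b t = 0 := hb3 t ((A1_arc_fixed G t).2 ht)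
      have h1 : ∀ x, b x * (if q' x = q' t then 0 else if odd G x.1.1 then 1 else 0) =
          b x * par G x.1.1 := by
        intro x
        by_cases hx : q' x = q' t
        · rw [hmk x t hx, hbt, zero_mul, zero_mul]
        · rw [if_neg hx, odd_par]
      rw [Finset.sum_congr rfl (fun x _ => h1 x), ← par_jump G hN s b hJ]
      have h2 : ∑ x ∈ univ.filter (fun x : Half N => x.1.2 = false), b x * par G x.1.1 =
          ∑ z : Fin N × Bool, b ((z.1, false), z.2) * par G z.1 := by
        symm
        refine Finset.sum_bij (fun z _ => ((z.1, false), z.2)) ?_ ?_ ?_ ?_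
        · intro z _; simp
        · rintro ⟨a, b⟩ _ ⟨c, d⟩ _ h
          simp only [Prod.mk.injEq, and_true] at h
          rw [h.1, h.2]
        · rintro ⟨⟨c, b⟩, e⟩ h
          have h' : b = false := by simpa using h
          exact ⟨(c, e), Finset.mem_univ _, by rw [h']⟩
        · intro z _; rfl
      rw [h2, Fintype.sum_prod_type]
      refine Finset.sum_congr rfl fun c _ => ?_
      rw [Fintype.sum_bool]
      unfold jump
      ring)
  refine ⟨fun x => decide (u x = 1), ?_, ?_⟩
  · intro x hx
    have h1 := hu1 x
    rw [show A1_arc G x = arcFun G x from if_neg hx] at h1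
    simp only [h1]
  · intro x hx
    have h1 := hu2 x
    rw [if_neg hx] at h1
    show xor (decide (u x = 1)) (decide (u (smooth (tri s) x) = 1)) = odd G x.1.1
    revert h1
    generalize u x = a
    generalize u (smooth (tri s) x) = b
    generalize odd G x.1.1 = c
    revert a b c
    decide

/-- **The number of the curves of a symmetric state of the lift.** -/
theorem loops_lift (G : GaussWord N) (hN : 0 < N) (s : Fin N → Bool) :
    loops (lift G) (liftState G s) + 1 = 2 * loops G s := by
  classical
  have hlt : 0 < 2 * N := by omega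
  let t : Half N := (G.symm ⟨0, hlt⟩, false)
  have ht : A1_cut G t := Or.inr ⟨rfl, by simp [t]⟩
  obtain ⟨u, hu1, hu2⟩ := exists_u G hN s t ht
  rw [card_lift, loops_eq]
  have h := card_cover (arcFun G) (smooth (tri s)) (A1_cut G) (fun x => odd G x.1.1) t ht
    (fun x hx => mk_cut G _ x t hx ht)
    (fun x y h => by
      have h1 : Quot.mk (KJoined G s) x = Quot.mk (KJoined G s) y := by
        rw [(t_A1 N G s).1]
        exact h
      have h2 : ∀ x y, KJoined G s x y →
          Quot.mk (fun x y => ¬ A1_cut G x ∧ y = arcFun G x ∨ y = smooth (tri s) x) x =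
          Quot.mk (fun x y => ¬ A1_cut G x ∧ y = arcFun G x ∨ y = smooth (tri s) x) y := by
        rintro x y (⟨p, q, hpq, rfl, rfl⟩ | ⟨c, b, hs, rfl, rfl⟩ | ⟨c, e, hs, rfl, rfl⟩)
        · have h1 := next_val G p
          have h2 := (G q).2
          rw [if_neg (by omega), ← hpq] at h1
          have h3 : next G p = q := G.injective (Fin.ext h1)
          refine Quot.sound (Or.inl ⟨?_, ?_⟩)
          · rintro (⟨_, h'⟩ | ⟨h', _⟩)
            · simp only at h'; omega
            · simp at h'
          · show (q, false) = (next G p, false)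
            rw [h3]
        · refine Quot.sound (Or.inr ?_)
          rw [smooth_tri, hs]
          rfl
        · refine Quot.sound (Or.inr ?_)
          rw [smooth_tri, hs]
          simp
      exact congrArg (Quot.lift _ h2) h1)
    u hu1 hu2
  exact h

end Pool.Agent.T6.H98.DC
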